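import Mathlib

/-!
# A small determinant
-/

set_option autoImplicit false

open Set Finset

namespace Pool.Agent.TH814.GN

/-- `0 + 1 + … + (n - 1)` -/
def EE (n : ℕ) : ℕ := ∑ s ∈ Finset.range n, (n - (s + 1))

theorem two_EE (n : ℕ) : 2 * EE n = n * (n - 1) := by
  have h1 : EE n = ∑ s ∈ Finset.range n, s := by
    unfold EE
    rw [← Finset.sum_range_reflect (fun s => s) n]
    refine Finset.sum_congr rfl fun s _ => ?_
    omega
  rw [h1, mul_comm, Finset.sum_range_id_mul_two]

theorem sum_ge {I : Type} [Fintype I] {n : ℕ} (hn : Fintype.card I = n) (r : I → ℕ)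
    (h : ∀ i j, r i = r j → r i < n → i = j) : EE n ≤ ∑ i, r i := by
  classical
  have h1 : ∀ s ∈ Finset.range n, n - (s + 1) ≤
      ((Finset.univ : Finset I).filter (fun i => s < r i)).card := by
    intro s hs
    rw [Finset.mem_range] at hs
    have h2 : ((Finset.univ : Finset I).filter (fun i => ¬ s < r i)).card ≤ s + 1 := by
      have : ((Finset.univ : Finset I).filter (fun i => ¬ s < r i)).card ≤
          (Finset.range (s + 1)).card := by
        apply Finset.card_le_card_of_injOn r
        · intro i hi
          simp only [Finset.coe_filter, Finset.mem_univ, true_and, Set.mem_setOf_eq, not_lt] at hi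
          simp only [Finset.coe_range, Set.mem_Iio]
          omega
        · intro i hi j hj hij
          simp only [Finset.coe_filter, Finset.mem_univ, true_and, Set.mem_setOf_eq, not_lt] at hi
          exact h i j hij (by omega)
      simpa using this
    have h3 := Finset.card_filter_add_card_filter_not (s := (Finset.univ : Finset I)) (fun i => s < r i)
    rw [Finset.card_univ, hn] at h3
    omega
  refine (Finset.sum_le_sum h1).trans ?_
  simp only [Finset.card_filter]
  rw [Finset.sum_comm]
  refine Finset.sum_le_sum fun i _ => ?_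
  rw [← Finset.card_filter]
  calc ((Finset.range n).filter (fun s => s < r i)).card ≤ (Finset.range (r i)).card := by
        apply Finset.card_le_card
        intro s hs
        rw [Finset.mem_filter] at hs
        exact Finset.mem_range.2 hs.2
    _ = r i := Finset.card_range _

/-- the determinant is at most `card! ∏ (row bounds)` -/
theorem abs_det_le' {I : Type} [Fintype I] [DecidableEq I] (V : Matrix I I ℝ) (β : I → ℝ)
    (h : ∀ x y, |V x y| ≤ β x) : |V.det| ≤ ((Fintype.card I).factorial : ℝ) * ∏ x, β x := by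
  rw [← Matrix.det_transpose, Matrix.det_apply]
  calc |∑ σ : Equiv.Perm I, Equiv.Perm.sign σ • ∏ i, V.transpose (σ i) i|
      ≤ ∑ σ : Equiv.Perm I, |Equiv.Perm.sign σ • ∏ i, V.transpose (σ i) i| :=
        Finset.abs_sum_le_sum_abs _ _
    _ ≤ ∑ _σ : Equiv.Perm I, ∏ x, β x := by
        refine Finset.sum_le_sum fun σ _ => ?_
        have h1 : |Equiv.Perm.sign σ • ∏ i, V.transpose (σ i) i| = ∏ i, |V.transpose (σ i) i| := by
          rw [← Finset.abs_prod]
          rcases Int.units_eq_one_or (Equiv.Perm.sign σ) with h2 | h2 <;> simp [h2]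
        rw [h1]
        exact Finset.prod_le_prod (fun i _ => abs_nonneg _) fun i _ => h _ _
    _ = ((Fintype.card I).factorial : ℝ) * ∏ x, β x := by
        rw [Finset.sum_const, Finset.card_univ, Fintype.card_perm, nsmul_eq_mul]

/-- Functions `φ_m` with Taylor expansions at `0`: the determinant of their values at points of `[0, η]` is small. -/
theorem det_small {I : Type} [Fintype I] [DecidableEq I] {n : ℕ} (hn : Fintype.card I = n)
    (φ : I → ℝ → ℝ) (τ : I → ℕ → ℝ) (B : ℝ) (hB : 1 ≤ B) (hτ : ∀ m j, j < n → |τ m j| ≤ B)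
    (hR : ∀ m, ∀ t : ℝ, 0 ≤ t → t ≤ 1 → |φ m t - ∑ j ∈ Finset.range n, τ m j * t ^ j| ≤ B * t ^ n)
    (η : ℝ) (h0 : 0 ≤ η) (h1 : η ≤ 1) (t : I → ℝ) (ht : ∀ x, 0 ≤ t x ∧ t x ≤ η) :
    |(Matrix.of fun x m => φ m (t x)).det| ≤
      ((n : ℝ) + 1) ^ n * (B ^ n * ((n.factorial : ℝ) * B ^ n)) * η ^ EE n := by
  classical
  set g : I → Fin (n + 1) → (I → ℝ) := fun m k x =>
    if (k : ℕ) < n then τ m k * t x ^ (k : ℕ) else φ m (t x) - ∑ j ∈ Finset.range n, τ m j * t x ^ j with hg
  have hsum : ∀ m, (fun x => φ m (t x)) = ∑ k : Fin (n + 1), g m k := by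
    intro m
    funext x
    rw [Finset.sum_apply, Fin.sum_univ_castSucc]
    have e1 : ∀ k : Fin n, g m (Fin.castSucc k) x = τ m k * t x ^ (k : ℕ) := by
      intro k
      simp [hg]
    have e2 : g m (Fin.last n) x = φ m (t x) - ∑ j ∈ Finset.range n, τ m j * t x ^ j := by
      simp [hg]
    rw [e2]
    simp only [e1]
    rw [Fin.sum_univ_eq_sum_range (fun k => τ m k * t x ^ k)]
    ring
  have hdet : (Matrix.of fun x m => φ m (t x)).det =
      ∑ r : I → Fin (n + 1), (Matrix.of fun m => g m (r m)).det := by
    rw [← Matrix.det_transpose]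
    have e1 : (Matrix.of fun x m => φ m (t x)).transpose = Matrix.of fun m => ∑ k : Fin (n + 1), g m k := by
      ext m x
      rw [Matrix.transpose_apply, Matrix.of_apply, Matrix.of_apply, ← hsum]
    rw [e1]
    exact (Matrix.detRowAlternating (R := ℝ) (n := I)).toMultilinearMap.map_sum (fun m k => g m k)
  have hterm : ∀ r : I → Fin (n + 1), |(Matrix.of fun m => g m (r m)).det| ≤
      B ^ n * ((n.factorial : ℝ) * B ^ n) * η ^ EE n := by
    intro r
    set c : I → ℝ := fun m => if (r m : ℕ) < n then τ m (r m) else 1 with hc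
    set A : Matrix I I ℝ := Matrix.of fun m x =>
      if (r m : ℕ) < n then t x ^ (r m : ℕ) else φ m (t x) - ∑ j ∈ Finset.range n, τ m j * t x ^ j with hA
    have e1 : (Matrix.of fun m => g m (r m)) = Matrix.of fun m x => c m * A m x := by
      ext m x
      simp only [Matrix.of_apply, hg, hc, hA]
      split_ifs <;> ring
    rw [e1, Matrix.det_mul_column, abs_mul, Finset.abs_prod]
    have e2 : ∏ m, |c m| ≤ B ^ n := by
      calc ∏ m, |c m| ≤ ∏ _m : I, B := by
            refine Finset.prod_le_prod (fun i _ => abs_nonneg _) fun m _ => ?_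
            simp only [hc]
            split_ifs with h
            · exact hτ m _ h
            · simpa using hB
        _ = B ^ n := by rw [Finset.prod_const, Finset.card_univ, hn]
    have e3 : |A.det| ≤ ((n.factorial : ℝ) * B ^ n) * η ^ EE n := by
      by_cases hinj : ∀ i j, (r i : ℕ) = (r j : ℕ) → (r i : ℕ) < n → i = j
      · have e4 := abs_det_le' A (fun m => B * η ^ (r m : ℕ)) (by
          intro m x
          obtain ⟨hx0, hx1⟩ := ht x
          have hp : t x ^ (r m : ℕ) ≤ η ^ (r m : ℕ) := pow_le_pow_left₀ hx0 hx1 _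
          simp only [hA, Matrix.of_apply]
          split_ifs with h
          · rw [abs_of_nonneg (pow_nonneg hx0 _)]
            have : 0 ≤ η ^ (r m : ℕ) := pow_nonneg h0 _
            nlinarith
          · have hrm : (r m : ℕ) = n := by have := (r m).isLt; omega
            rw [hrm] at hp ⊢
            exact (hR m (t x) hx0 (hx1.trans h1)).trans (mul_le_mul_of_nonneg_left hp (by linarith)))
        refine e4.trans ?_
        rw [hn, Finset.prod_mul_distrib, Finset.prod_const, Finset.card_univ, hn, Finset.prod_pow_eq_pow_sum,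
          ← mul_assoc]
        refine mul_le_mul_of_nonneg_left ?_ (by positivity)
        exact pow_le_pow_of_le_one h0 h1 (sum_ge hn (fun m => (r m : ℕ)) hinj)
      · push Not at hinj
        obtain ⟨i, j, hij, hlt, hne⟩ := hinj
        have : A.det = 0 := by
          refine Matrix.det_zero_of_row_eq hne ?_
          funext x
          simp only [hA, Matrix.of_apply]
          rw [if_pos hlt, if_pos (hij ▸ hlt), hij]
        rw [this, abs_zero]
        positivity
    calc (∏ m, |c m|) * |A.det| ≤ B ^ n * (((n.factorial : ℝ) * B ^ n) * η ^ EE n) :=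
          mul_le_mul e2 e3 (abs_nonneg _) (by positivity)
      _ = _ := by ring
  rw [hdet]
  calc |∑ r : I → Fin (n + 1), (Matrix.of fun m => g m (r m)).det|
      ≤ ∑ r : I → Fin (n + 1), |(Matrix.of fun m => g m (r m)).det| := Finset.abs_sum_le_sum_abs _ _
    _ ≤ ∑ _r : I → Fin (n + 1), B ^ n * ((n.factorial : ℝ) * B ^ n) * η ^ EE n :=
        Finset.sum_le_sum fun r _ => hterm r
    _ = _ := by
        rw [Finset.sum_const, Finset.card_univ, Fintype.card_fun, Fintype.card_fin, hn, nsmul_eq_mul]
        push_cast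
        ring

end Pool.Agent.TH814.GN
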