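import Pool.Agent.TH814.GN.Gap

/-!
# The Gamma function
-/

set_option autoImplicit false

open Set Polynomial Filter Topology

namespace Pool.Agent.TH814.GN

open Pool.Agent.TH818.AR

theorem gamma_an {x : ℝ} (hx : 0 < x) : AnalyticAt ℝ Real.Gamma x := by
  have hopen : IsOpen {z : ℂ | 0 < z.re} := isOpen_lt continuous_const Complex.continuous_re
  have h1 : DifferentiableOn ℂ Complex.Gamma {z : ℂ | 0 < z.re} := by
    intro z hz
    refine (Complex.differentiableAt_Gamma z ?_).differentiableWithinAt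
    intro m hm
    have hz' : 0 < z.re := hz
    rw [hm] at hz'
    simp at hz'
    have : (0 : ℝ) ≤ m := Nat.cast_nonneg m
    linarith
  have h2 : AnalyticAt ℂ Complex.Gamma (x : ℂ) := h1.analyticAt (hopen.mem_nhds (by simpa using hx))
  have h3 := h2.re_ofReal
  refine h3.congr ?_
  refine Eventually.of_forall fun y => ?_
  simp [Complex.Gamma_ofReal]

/-- `Γ(1 + t)` -/
noncomputable def G1 (t : ℝ) : ℝ := Real.Gamma (1 + t)

theorem G1_an {t : ℝ} (ht : -1 < t) : AnalyticAt ℝ G1 t := by
  have h1 : AnalyticAt ℝ (fun t : ℝ => 1 + t) t := analyticAt_const.add analyticAt_id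
  exact AnalyticAt.comp (g := Real.Gamma) (f := fun t : ℝ => 1 + t) (gamma_an (by linarith)) h1

theorem poly_fact (P : ℝ[X]) :
    Tendsto (fun n : ℕ => P.eval (n : ℝ) / (n.factorial : ℝ)) atTop (𝓝 0) := by
  have h1 := (Polynomial.tendsto_div_exp_atTop P).comp (tendsto_natCast_atTop_atTop (R := ℝ))
  have h2 := FloorSemiring.tendsto_pow_div_factorial_atTop (Real.exp 1)
  have h3 := h1.mul h2
  rw [zero_mul] at h3
  refine h3.congr fun n => ?_
  simp only [Function.comp]
  have e : Real.exp 1 ^ n = Real.exp (n : ℝ) := by rw [← Real.exp_nat_mul, mul_one]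
  rw [e]
  have := Real.exp_ne_zero (n : ℝ)
  field_simp

theorem zero_of_tendsto (P : ℝ[X]) (h : Tendsto (fun n : ℕ => P.eval (n : ℝ)) atTop (𝓝 0)) : P = 0 := by
  by_cases hd : 0 < P.degree
  · have h1 := (Polynomial.abs_tendsto_atTop P hd).comp (tendsto_natCast_atTop_atTop (R := ℝ))
    have h2 := h.abs
    exact absurd h1 (not_tendsto_atTop_of_tendsto_nhds h2)
  · have h1 := Polynomial.eq_C_of_degree_le_zero (not_lt.1 hd)
    rw [h1] at h ⊢
    simp only [eval_C] at h
    rw [tendsto_const_nhds_iff] at h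
    rw [h, C_0]

theorem G1_ind (D : ℕ) : PolyIndep (pw G1 D) 0 1 := by
  classical
  intro p hp
  set P : Fin (D + 1) → ℝ[X] := fun l => (p l).map (algebraMap ℚ ℝ) with hP
  have hev : ∀ l t, aeval t (p l) = (P l).eval t := fun l t => by
    simp only [hP]
    rw [eval_map_algebraMap]
  set g : ℝ → ℝ := fun t => ∑ l, (P l).eval t * G1 t ^ (l : ℕ) with hg
  have hgan : AnalyticOnNhd ℝ g (Ioi (-1)) := by
    intro t ht
    have h1 : ∀ l ∈ (Finset.univ : Finset (Fin (D + 1))),
        AnalyticAt ℝ (fun t => (P l).eval t * G1 t ^ (l : ℕ)) t := fun l _ =>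
      (AnalyticOnNhd.eval_polynomial (P l) t (mem_univ t)).mul ((G1_an ht).pow _)
    exact Finset.analyticAt_fun_sum _ h1
  have hg0 : EqOn g 0 (Ioi (-1)) := by
    apply hgan.eqOn_zero_of_preconnected_of_eventuallyEq_zero isPreconnected_Ioi (z₀ := 1 / 2)
      (by norm_num)
    filter_upwards [Icc_mem_nhds (show (0 : ℝ) < 1 / 2 by norm_num) (show (1 / 2 : ℝ) < 1 by norm_num)] with t ht
    have h1 := hp t ht
    simp only [hev] at h1
    exact h1
  have hnat : ∀ n : ℕ, ∑ l, (P l).eval (n : ℝ) * (n.factorial : ℝ) ^ (l : ℕ) = 0 := by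
    intro n
    have h1 := hg0 (show (n : ℝ) ∈ Ioi (-1 : ℝ) by
      have : (0 : ℝ) ≤ n := Nat.cast_nonneg n
      exact lt_of_lt_of_le (by norm_num) this)
    have h2 : G1 (n : ℝ) = (n.factorial : ℝ) := by
      unfold G1
      rw [add_comm, Real.Gamma_nat_eq_factorial]
    simp only [hg, h2, Pi.zero_apply] at h1
    exact h1
  -- the top coefficient
  have top : ∀ l : Fin (D + 1), (∀ l' : Fin (D + 1), l < l' → P l' = 0) → P l = 0 := by
    intro l hl
    apply zero_of_tendsto
    have h1 : ∀ l' ∈ (Finset.univ : Finset (Fin (D + 1))).filter (fun l' => l' < l),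
        Tendsto (fun n : ℕ => (P l').eval (n : ℝ) * (n.factorial : ℝ) ^ (l' : ℕ) /
          (n.factorial : ℝ) ^ (l : ℕ)) atTop (𝓝 0) := by
      intro l' hl'
      rw [Finset.mem_filter] at hl'
      have h2 := (poly_fact (P l')).abs
      rw [abs_zero] at h2
      refine squeeze_zero_norm (fun n => ?_) h2
      have hf1 : (1 : ℝ) ≤ (n.factorial : ℝ) := by exact_mod_cast n.factorial_pos
      have hf0 : (0 : ℝ) < (n.factorial : ℝ) := by linarith
      have hlt : (l' : ℕ) + 1 ≤ (l : ℕ) := hl'.2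
      rw [Real.norm_eq_abs, abs_div, abs_div, abs_mul, abs_of_nonneg (pow_nonneg hf0.le (l' : ℕ)),
        abs_of_nonneg (pow_nonneg hf0.le (l : ℕ)), abs_of_nonneg hf0.le,
        div_le_div_iff₀ (pow_pos hf0 _) hf0, mul_assoc, ← pow_succ]
      exact mul_le_mul_of_nonneg_left (pow_le_pow_right₀ hf1 hlt) (abs_nonneg _)
    have h3 := (tendsto_finsetSum _ h1).neg
    rw [Finset.sum_const_zero, neg_zero] at h3
    refine h3.congr fun n => ?_
    have hf0 : (0 : ℝ) < (n.factorial : ℝ) := by exact_mod_cast n.factorial_pos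
    have h4 := hnat n
    rw [← Finset.sum_filter_add_sum_filter_not _ (fun l' => l' < l)] at h4
    have h5 : ∑ l' ∈ (Finset.univ : Finset (Fin (D + 1))).filter (fun l' => ¬ l' < l),
        (P l').eval (n : ℝ) * (n.factorial : ℝ) ^ (l' : ℕ) =
        (P l).eval (n : ℝ) * (n.factorial : ℝ) ^ (l : ℕ) := by
      apply Finset.sum_eq_single l
      · intro l' hl' hne
        rw [Finset.mem_filter] at hl'
        rw [hl l' (lt_of_le_of_ne (not_lt.1 hl'.2) (Ne.symm hne))]
        simp
      · intro h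
        exact absurd (by simp) h
    rw [h5] at h4
    rw [← Finset.sum_div, ← neg_div, div_eq_iff (pow_pos hf0 _).ne']
    linarith
  have key : ∀ k : ℕ, ∀ l : Fin (D + 1), D < (l : ℕ) + k → P l = 0 := by
    intro k
    induction k with
    | zero =>
      intro l hl
      have := l.isLt
      omega
    | succ k ih =>
      intro l hl
      apply top l
      intro l' hll
      apply ih l'
      have : (l : ℕ) < (l' : ℕ) := hll
      omega
  funext l
  have h1 := key (D + 1) l (by omega)
  simp only [hP] at h1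
  exact (Polynomial.map_eq_zero_iff (algebraMap ℚ ℝ).injective).1 h1

/-- the powers of `G1 ^ m` -/
theorem G1_pow_ind (m : ℕ) (hm : 1 ≤ m) (D : ℕ) : PolyIndep (pw (fun t => G1 t ^ m) D) 0 1 := by
  classical
  intro p hp
  set e : Fin (D + 1) → Fin (m * D + 1) := fun l => ⟨m * (l : ℕ), by
    have h1 : (l : ℕ) ≤ D := by have := l.isLt; omega
    exact Nat.lt_succ_of_le (Nat.mul_le_mul_left m h1)⟩ with he
  have hinj : Function.Injective e := by
    intro a b hab
    have h1 : m * (a : ℕ) = m * (b : ℕ) := congrArg Fin.val hab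
    exact Fin.ext (Nat.eq_of_mul_eq_mul_left (by omega) h1)
  set p' : Fin (m * D + 1) → ℚ[X] := fun k => if h : ∃ l, e l = k then p h.choose else 0 with hp'
  have hpe : ∀ l, p' (e l) = p l := by
    intro l
    have h : ∃ l', e l' = e l := ⟨l, rfl⟩
    simp only [hp']
    rw [dif_pos h, hinj h.choose_spec]
  have h0 : p' = 0 := by
    apply G1_ind (m * D) p'
    intro t ht
    rw [← hp t ht]
    symm
    apply Fintype.sum_of_injective e hinj
    · intro k hk
      have h : ¬ ∃ l, e l = k := fun ⟨l, hl⟩ => hk ⟨l, hl⟩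
      simp only [hp']
      rw [dif_neg h]
      simp
    · intro l
      rw [hpe]
      simp only [pw, he]
      rw [← pow_mul]
  funext l
  rw [← hpe, h0]
  rfl

end Pool.Agent.TH814.GN
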