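import Pool.Agent.TH818.AR.All
import Pool.Agent.TH814.GN.Det

/-!
# Rational values of an analytic function at the points `1 / n`
-/

set_option autoImplicit false

open Set Polynomial Filter Topology

namespace Pool.Agent.TH814.GN

open Pool.Agent.TH818.AR

/-- the powers of `f` -/
noncomputable def pw (f : ℝ → ℝ) (D : ℕ) (l : Fin (D + 1)) (t : ℝ) : ℝ := f t ^ (l : ℕ)

theorem pw_an {f : ℝ → ℝ} (hf : AnalyticOnNhd ℝ f (Icc 0 1)) (D : ℕ) (l : Fin (D + 1)) :
    AnalyticOnNhd ℝ (pw f D l) (Icc 0 1) := fun t ht => (hf t ht).pow _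

theorem det_bd (f : ℝ → ℝ) (D : ℕ) (hf : AnalyticOnNhd ℝ f (Icc 0 1)) :
    ∃ C : ℝ, 0 < C ∧ ∀ η : ℝ, 0 ≤ η → η ≤ 1 → ∀ t : Fin (D + 1) × Fin (D + 1) → ℝ,
      (∀ x, 0 ≤ t x ∧ t x ≤ η) →
      |(Matrix.of fun x y : Fin (D + 1) × Fin (D + 1) => t x ^ (y.1 : ℕ) * f (t x) ^ (y.2 : ℕ)).det| ≤
        C * η ^ EE ((D + 1) * (D + 1)) := by
  classical
  obtain ⟨n, w, hG, hrep⟩ := basis (pw f D) 0 1 zero_lt_one (pw_an hf D) D
  have h1 : ∀ y : Fin (D + 1) × Fin (D + 1), ∃ x : Fin n → ℝ, ∀ t ∈ Icc (0 : ℝ) 1,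
      t ^ (y.1 : ℕ) * f t ^ (y.2 : ℕ) = comb w x t := by
    intro y
    obtain ⟨x, hx⟩ := hrep (Pi.single y.2 (X ^ (y.1 : ℕ))) (by
      intro i
      by_cases hi : i = y.2
      · rw [hi, Pi.single_eq_same, natDegree_X_pow]
        have := y.1.isLt
        omega
      · rw [Pi.single_eq_of_ne hi]
        simp)
    refine ⟨x, fun t ht => ?_⟩
    rw [← hx t ht, Finset.sum_eq_single y.2]
    · rw [Pi.single_eq_same]
      simp [pw]
    · intro i _ hi
      rw [Pi.single_eq_of_ne hi]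
      simp
    · intro h
      exact absurd (Finset.mem_univ _) h
  choose x hx using h1
  set N : ℕ := (D + 1) * (D + 1) with hN
  have hN1 : 1 ≤ N := Nat.mul_pos (Nat.succ_pos _) (Nat.succ_pos _)
  obtain ⟨B₁, hB₁, hT⟩ := taylor 0 1 n w hG N
  obtain ⟨B₂, hB₂, hbd⟩ := bd 0 1 n w hG N
  set Sx : ℝ := ∑ y, ‖x y‖ with hSx
  have hle : ∀ y, ‖x y‖ ≤ Sx := fun y =>
    Finset.single_le_sum (f := fun y => ‖x y‖) (fun i _ => norm_nonneg _) (Finset.mem_univ y)
  have hSx0 : 0 ≤ Sx := Finset.sum_nonneg fun i _ => norm_nonneg _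
  set B : ℝ := 1 + (B₁ + B₂) * Sx with hB
  have hB1 : 1 ≤ B := by
    have : 0 ≤ (B₁ + B₂) * Sx := by positivity
    linarith
  have hb1 : B₁ * Sx ≤ B := by nlinarith
  have hb2 : B₂ * Sx ≤ B := by nlinarith
  have hz : (0 : ℝ) ∈ Icc (0 : ℝ) 1 := ⟨le_rfl, zero_le_one⟩
  refine ⟨((N : ℝ) + 1) ^ N * (B ^ N * ((N.factorial : ℝ) * B ^ N)), by positivity, ?_⟩
  intro η h0 h1 t ht
  have key := det_small (I := Fin (D + 1) × Fin (D + 1)) (n := N)
    (by rw [Fintype.card_prod, Fintype.card_fin]) (fun y => comb w (x y))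
    (fun y j => iteratedDeriv j (comb w (x y)) 0 / (j.factorial : ℝ)) B hB1
    (by
      intro y j hj
      have h2 := hbd (x y) 0 hz j hj.le
      have h3 : (1 : ℝ) ≤ (j.factorial : ℝ) := by exact_mod_cast j.factorial_pos
      rw [abs_div, abs_of_nonneg (by linarith : (0 : ℝ) ≤ (j.factorial : ℝ))]
      calc |iteratedDeriv j (comb w (x y)) 0| / (j.factorial : ℝ)
          ≤ |iteratedDeriv j (comb w (x y)) 0| / 1 :=
            div_le_div_of_nonneg_left (abs_nonneg _) one_pos h3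
        _ = |iteratedDeriv j (comb w (x y)) 0| := div_one _
        _ ≤ B₂ * ‖x y‖ := h2
        _ ≤ B₂ * Sx := mul_le_mul_of_nonneg_left (hle y) hB₂.le
        _ ≤ B := hb2)
    (by
      intro y s hs0 hs1
      have h2 := hT (x y) 0 s hz ⟨hs0, hs1⟩ (N - 1) (by omega)
      rw [Nat.sub_add_cancel hN1, sub_zero, abs_of_nonneg hs0] at h2
      refine h2.trans ?_
      have h3 : B₁ * ‖x y‖ ≤ B := (mul_le_mul_of_nonneg_left (hle y) hB₁.le).trans hb1
      exact mul_le_mul_of_nonneg_right h3 (pow_nonneg hs0 _))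
    η h0 h1 t ht
  have e : (Matrix.of fun x y : Fin (D + 1) × Fin (D + 1) => t x ^ (y.1 : ℕ) * f (t x) ^ (y.2 : ℕ)) =
      Matrix.of fun z y : Fin (D + 1) × Fin (D + 1) => comb w (x y) (t z) := by
    ext z y
    simp only [Matrix.of_apply]
    exact hx y (t z) ⟨(ht z).1, (ht z).2.trans h1⟩
  rw [e]
  exact key

theorem gap (f : ℝ → ℝ) (hf : AnalyticOnNhd ℝ f (Icc 0 1))
    (hind : ∀ D : ℕ, PolyIndep (pw f D) 0 1) (A κ : ℝ) (hA : 0 ≤ A) (hκ : 1 ≤ κ) :
    ∃ Z : ℕ, ∀ N : ℕ, 1 ≤ N → ∀ S : Finset ℕ,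
      (∀ n ∈ S, N ≤ n ∧ (n : ℝ) ≤ (N : ℝ) ^ κ ∧ ∃ (u : ℤ) (v : ℕ), 1 ≤ v ∧ (v : ℝ) ≤ (n : ℝ) ^ A ∧
        f (1 / n) = u / v) → S.card ≤ Z := by
  classical
  set D : ℕ := ⌈2 * κ * (1 + A)⌉₊ with hD
  have hDr : 2 * κ * (1 + A) ≤ (D : ℝ) := Nat.le_ceil _
  have hD1 : (1 : ℝ) ≤ (D : ℝ) := by nlinarith
  obtain ⟨C, hC, hdet⟩ := det_bd f D hf
  obtain ⟨n0, w, hG, hrep⟩ := basis (pw f D) 0 1 zero_lt_one (pw_an hf D) D
  obtain ⟨Z0, hZ0⟩ := zero_of ord bd 0 1 n0 w hG
  refine ⟨max Z0 (⌊C ^ κ⌋₊ + 1), fun N hN S hS => ?_⟩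
  have hNr : (1 : ℝ) ≤ (N : ℝ) := by exact_mod_cast hN
  have hN0 : (0 : ℝ) < (N : ℝ) := by linarith
  rcases le_or_gt (N : ℝ) C with hNC | hNC
  · refine le_trans ?_ (le_max_right _ _)
    have hsub : S ⊆ Finset.range (⌊C ^ κ⌋₊ + 1) := by
      intro n hn
      rw [Finset.mem_range, Nat.lt_succ_iff]
      apply Nat.le_floor
      exact (hS n hn).2.1.trans (Real.rpow_le_rpow hN0.le hNC (by linarith))
    simpa using Finset.card_le_card hsub
  · refine le_trans ?_ (le_max_left _ _)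
    choose! u v hv1 hv2 huv using fun n (hn : n ∈ S) => (hS n hn).2.2
    set cv : ℕ → Fin (D + 1) → ℤ := fun n l => u n ^ (l : ℕ) * (v n : ℤ) ^ (D - (l : ℕ)) with hcv
    have hcvR : ∀ n ∈ S, ∀ l, (cv n l : ℝ) = (v n : ℝ) ^ D * f (1 / n) ^ (l : ℕ) := by
      intro n hn l
      have hv0 : (v n : ℝ) ≠ 0 := by
        have : (1 : ℝ) ≤ (v n : ℝ) := by exact_mod_cast hv1 n hn
        linarith
      have hl : (l : ℕ) ≤ D := by have := l.isLt; omega
      have hu : (u n : ℝ) = f (1 / n) * v n := by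
        rw [huv n hn]
        field_simp
      simp only [hcv]
      push_cast
      rw [hu, mul_pow, mul_assoc, ← pow_add, Nat.add_sub_cancel' hl, mul_comm]
    have hpos : ∀ n ∈ S, (1 : ℝ) ≤ (n : ℝ) := fun n hn =>
      hNr.trans (by exact_mod_cast (hS n hn).1)
    set S' : Set (ℚ × (Fin (D + 1) → ℤ)) := {s | ∃ n ∈ S, s = ((1 : ℚ) / n, cv n)} with hS'
    obtain ⟨p, hp0, hpd, hpS⟩ := aux (D + 1) D S' (Nat.succ_pos _) (by
      intro e he
      by_contra hne
      choose m hmS hm using he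
      set q : Fin (D + 1) × Fin (D + 1) → ℚ := fun x => 1 / (m x : ℚ) with hq
      set T : ℝ := (N : ℝ) ^ κ with hT
      have hT1 : 1 ≤ T := Real.one_le_rpow hNr (by linarith)
      have hden : ∀ x, ((q x).den : ℝ) ≤ T := by
        intro x
        have h1 : (q x).den = m x := by
          have h2 : 0 < m x := lt_of_lt_of_le hN (hS _ (hmS x)).1
          simp only [hq, one_div]
          rw [Rat.inv_natCast_den]
          simp [h2.ne']
        rw [h1]
        exact (hS _ (hmS x)).2.1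
      have hcast : (Matrix.of fun x y : Fin (D + 1) × Fin (D + 1) =>
          ((q x : ℝ)) ^ (y.1 : ℕ) * (cv (m x) y.2 : ℝ)) =
          (Matrix.of fun x y : Fin (D + 1) × Fin (D + 1) =>
            (e x).1 ^ (y.1 : ℕ) * ((e x).2 y.2 : ℚ)).map (algebraMap ℚ ℝ) := by
        ext x y
        simp only [Matrix.of_apply, Matrix.map_apply, hm x, hq]
        simp
      have hne' : (Matrix.of fun x y : Fin (D + 1) × Fin (D + 1) =>
          ((q x : ℝ)) ^ (y.1 : ℕ) * (cv (m x) y.2 : ℝ)).det ≠ 0 := by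
        rw [hcast]
        intro h
        apply hne
        have h2 := RingHom.map_det (algebraMap ℚ ℝ) (Matrix.of fun x y : Fin (D + 1) × Fin (D + 1) =>
            (e x).1 ^ (y.1 : ℕ) * ((e x).2 y.2 : ℚ))
        rw [RingHom.mapMatrix_apply, h] at h2
        exact (map_eq_zero_iff _ (algebraMap ℚ ℝ).injective).1 h2
      have har := arith (D + 1) D q (fun x => cv (m x)) T hT1 hden hne'
      -- the determinant
      have hfac : (Matrix.of fun x y : Fin (D + 1) × Fin (D + 1) =>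
          ((q x : ℝ)) ^ (y.1 : ℕ) * (cv (m x) y.2 : ℝ)) =
          Matrix.of fun x y => ((v (m x) : ℝ) ^ D) * (Matrix.of fun x y : Fin (D + 1) × Fin (D + 1) =>
            (1 / (m x : ℝ)) ^ (y.1 : ℕ) * f (1 / (m x : ℝ)) ^ (y.2 : ℕ)) x y := by
        ext x y
        simp only [Matrix.of_apply, hq]
        rw [hcvR _ (hmS x)]
        push_cast
        ring
      rw [hfac, Matrix.det_mul_column, abs_mul] at har
      have hd := hdet (1 / (N : ℝ)) (by positivity) (by rw [div_le_one hN0]; exact hNr)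
        (fun x => 1 / (m x : ℝ)) (by
          intro x
          have h1 := hpos _ (hmS x)
          have h2 : (N : ℝ) ≤ (m x : ℝ) := by exact_mod_cast (hS _ (hmS x)).1
          exact ⟨by positivity, one_div_le_one_div_of_le hN0 h2⟩)
      set M : ℕ := (D + 1) * (D + 1) with hM
      have hprod : |∏ x : Fin (D + 1) × Fin (D + 1), ((v (m x) : ℝ) ^ D)| ≤ ((T ^ A) ^ D) ^ M := by
        rw [Finset.abs_prod]
        calc ∏ x : Fin (D + 1) × Fin (D + 1), |((v (m x) : ℝ) ^ D)|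
            ≤ ∏ _x : Fin (D + 1) × Fin (D + 1), (T ^ A) ^ D := by
              refine Finset.prod_le_prod (fun i _ => abs_nonneg _) fun x _ => ?_
              rw [abs_of_nonneg (by positivity)]
              refine pow_le_pow_left₀ (by positivity) ?_ _
              have h1 := hpos _ (hmS x)
              exact (hv2 _ (hmS x)).trans
                (Real.rpow_le_rpow (by linarith) (hS _ (hmS x)).2.1 hA)
          _ = ((T ^ A) ^ D) ^ M := by
              rw [Finset.prod_const, Finset.card_univ, Fintype.card_prod, Fintype.card_fin]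
      have hbig : (1 : ℝ) ≤ ((T ^ A) ^ D) ^ M * (C * (1 / (N : ℝ)) ^ EE M) * T ^ (D * M) := by
        refine har.trans ?_
        refine mul_le_mul_of_nonneg_right ?_ (by positivity)
        exact mul_le_mul hprod hd (abs_nonneg _) (by positivity)
      -- exponents
      have hE2 : 2 * (EE M : ℝ) = (M : ℝ) * ((D : ℝ) * (D + 2)) := by
        have h1 := two_EE M
        have h2 : M - 1 = D * (D + 2) := by
          rw [hM]
          have : (D + 1) * (D + 1) = D * (D + 2) + 1 := by ring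
          omega
        rw [h2] at h1
        exact_mod_cast h1
      have hM1 : (1 : ℝ) ≤ (M : ℝ) := by
        have : 1 ≤ M := Nat.mul_pos (Nat.succ_pos _) (Nat.succ_pos _)
        exact_mod_cast this
      have hexp : κ * A * D * M + κ * (D * M) + 1 ≤ (EE M : ℝ) := by
        have h1 : (M : ℝ) * D * (2 * κ * (1 + A)) ≤ (M : ℝ) * D * D :=
          mul_le_mul_of_nonneg_left hDr (by positivity)
        have h2 : (1 : ℝ) ≤ (M : ℝ) * D := by nlinarith
        nlinarith
      have e1 : ((T ^ A) ^ D) ^ M = (N : ℝ) ^ (κ * A * D * M) := by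
        rw [hT, ← Real.rpow_mul hN0.le, ← pow_mul, ← Real.rpow_natCast, ← Real.rpow_mul hN0.le]
        congr 1
        push_cast
        ring
      have e2 : T ^ (D * M) = (N : ℝ) ^ (κ * (D * M)) := by
        rw [hT, ← Real.rpow_natCast, ← Real.rpow_mul hN0.le]
        push_cast
        rfl
      have e3 : (1 / (N : ℝ)) ^ EE M = (N : ℝ) ^ (-(EE M : ℝ)) := by
        rw [Real.rpow_neg hN0.le, Real.rpow_natCast, one_div, inv_pow]
      rw [e1, e2, e3] at hbig
      have e4 : (N : ℝ) ^ (κ * A * D * M) * (C * (N : ℝ) ^ (-(EE M : ℝ))) * (N : ℝ) ^ (κ * (D * M)) =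
          C * (N : ℝ) ^ (κ * A * D * M + -(EE M : ℝ) + κ * (D * M)) := by
        rw [Real.rpow_add hN0, Real.rpow_add hN0]
        ring
      rw [e4] at hbig
      have h5 : (N : ℝ) ^ (κ * A * D * M + -(EE M : ℝ) + κ * (D * M)) ≤ (N : ℝ) ^ (-1 : ℝ) :=
        Real.rpow_le_rpow_of_exponent_le hNr (by linarith)
      rw [Real.rpow_neg_one] at h5
      have h6 : C * (N : ℝ)⁻¹ < 1 := by
        rw [← div_eq_mul_inv, div_lt_one hN0]
        exact hNC
      have h7 := mul_le_mul_of_nonneg_left h5 hC.le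
      linarith)
    obtain ⟨x, hx⟩ := hrep p hpd
    have hx0 : x ≠ 0 := by
      intro h
      apply hp0
      apply hind D p
      intro t ht
      rw [hx t ht, h]
      simp [comb]
    have hcard := hZ0 x hx0 (S.image fun n : ℕ => 1 / (n : ℝ)) (by
      intro z hz
      obtain ⟨n, hn, rfl⟩ := Finset.mem_image.1 hz
      have h1 := hpos n hn
      have hmem : (1 / (n : ℝ)) ∈ Icc (0 : ℝ) 1 :=
        ⟨by positivity, by rw [div_le_one (by linarith)]; exact h1⟩
      refine ⟨hmem, ?_⟩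
      rw [← hx _ hmem]
      have h2 := hpS ((1 : ℚ) / n, cv n) ⟨n, hn, rfl⟩
      have h3 : ((∑ l, (p l).eval ((1 : ℚ) / n) * (cv n l : ℚ) : ℚ) : ℝ) = 0 := by
        rw [h2]; simp
      push_cast at h3
      have hv0 : (v n : ℝ) ^ D ≠ 0 := by
        have : (1 : ℝ) ≤ (v n : ℝ) := by exact_mod_cast hv1 n hn
        positivity
      have h4 : (v n : ℝ) ^ D * ∑ l, aeval (1 / (n : ℝ)) (p l) * pw f D l (1 / (n : ℝ)) = 0 := by
        rw [← h3, Finset.mul_sum]
        refine Finset.sum_congr rfl fun l _ => ?_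
        rw [hcvR n hn l]
        have h5 : aeval (1 / (n : ℝ)) (p l) = (((p l).eval ((1 : ℚ) / n) : ℚ) : ℝ) := by
          have h6 : (1 / (n : ℝ)) = algebraMap ℚ ℝ ((1 : ℚ) / n) := by simp
          rw [h6, aeval_algebraMap_apply]
          simp [aeval_def, eval₂_id]
        rw [h5]
        simp only [pw]
        ring
      exact (mul_eq_zero.1 h4).resolve_left hv0)
    rw [Finset.card_image_of_injOn] at hcard
    · exact hcard
    · intro a _ b _ hab
      simp only [one_div, inv_inj] at hab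
      exact_mod_cast hab

end Pool.Agent.TH814.GN
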