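import Pool.Agent.TH814.GN.Gam

/-!
# Products of values of the Gamma function
-/

set_option autoImplicit false

open Set Polynomial Filter Topology

namespace Pool.Agent.TH814.GN

open Pool.Agent.TH818.AR

theorem ind_growth (f : ℝ → ℝ) (han : AnalyticOnNhd ℝ f (Ici 0)) (hf1 : ∀ᶠ n : ℕ in atTop, 1 ≤ f n)
    (hfP : ∀ P : ℝ[X], Tendsto (fun n : ℕ => P.eval (n : ℝ) / f n) atTop (𝓝 0)) (D : ℕ) :
    PolyIndep (pw f D) 0 1 := by
  classical
  intro p hp
  set P : Fin (D + 1) → ℝ[X] := fun l => (p l).map (algebraMap ℚ ℝ) with hP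
  have hev : ∀ l t, aeval t (p l) = (P l).eval t := fun l t => by
    simp only [hP]
    rw [eval_map_algebraMap]
  set g : ℝ → ℝ := fun t => ∑ l, (P l).eval t * f t ^ (l : ℕ) with hg
  have hgan : AnalyticOnNhd ℝ g (Ici 0) := by
    intro t ht
    have h1 : ∀ l ∈ (Finset.univ : Finset (Fin (D + 1))),
        AnalyticAt ℝ (fun t => (P l).eval t * f t ^ (l : ℕ)) t := fun l _ =>
      (AnalyticOnNhd.eval_polynomial (P l) t (mem_univ t)).mul ((han t ht).pow _)
    exact Finset.analyticAt_fun_sum _ h1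
  have hg0 : EqOn g 0 (Ici 0) := by
    apply hgan.eqOn_zero_of_preconnected_of_eventuallyEq_zero isPreconnected_Ici (z₀ := 1 / 2)
      (by norm_num)
    filter_upwards [Icc_mem_nhds (show (0 : ℝ) < 1 / 2 by norm_num) (show (1 / 2 : ℝ) < 1 by norm_num)] with t ht
    have h1 := hp t ht
    simp only [hev] at h1
    exact h1
  have hnat : ∀ n : ℕ, ∑ l, (P l).eval (n : ℝ) * f n ^ (l : ℕ) = 0 := fun n =>
    hg0 (mem_Ici.2 (Nat.cast_nonneg n))
  have top : ∀ l : Fin (D + 1), (∀ l' : Fin (D + 1), l < l' → P l' = 0) → P l = 0 := by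
    intro l hl
    apply zero_of_tendsto
    have h1 : ∀ l' ∈ (Finset.univ : Finset (Fin (D + 1))).filter (fun l' => l' < l),
        Tendsto (fun n : ℕ => (P l').eval (n : ℝ) * f n ^ (l' : ℕ) /
          f n ^ (l : ℕ)) atTop (𝓝 0) := by
      intro l' hl'
      rw [Finset.mem_filter] at hl'
      have h2 := (hfP (P l')).abs
      rw [abs_zero] at h2
      refine squeeze_zero_norm' ?_ h2
      filter_upwards [hf1] with n hn
      have hf0 : (0 : ℝ) < f n := by linarith
      have hlt : (l' : ℕ) + 1 ≤ (l : ℕ) := hl'.2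
      rw [Real.norm_eq_abs, abs_div, abs_div, abs_mul, abs_of_nonneg (pow_nonneg hf0.le (l' : ℕ)),
        abs_of_nonneg (pow_nonneg hf0.le (l : ℕ)), abs_of_nonneg hf0.le,
        div_le_div_iff₀ (pow_pos hf0 _) hf0, mul_assoc, ← pow_succ]
      exact mul_le_mul_of_nonneg_left (pow_le_pow_right₀ hn hlt) (abs_nonneg _)
    have h3 := (tendsto_finsetSum _ h1).neg
    rw [Finset.sum_const_zero, neg_zero] at h3
    refine h3.congr' ?_
    filter_upwards [hf1] with n hn
    have hf0 : (0 : ℝ) < f n := by linarith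
    have h4 := hnat n
    rw [← Finset.sum_filter_add_sum_filter_not _ (fun l' => l' < l)] at h4
    have h5 : ∑ l' ∈ (Finset.univ : Finset (Fin (D + 1))).filter (fun l' => ¬ l' < l),
        (P l').eval (n : ℝ) * f n ^ (l' : ℕ) = (P l).eval (n : ℝ) * f n ^ (l : ℕ) := by
      apply Finset.sum_eq_single l
      · intro l' hl' hne
        rw [Finset.mem_filter] at hl'
        rw [hl l' (lt_of_le_of_ne (not_lt.1 hl'.2) (Ne.symm hne))]
        simp
      · intro h
        exact absurd (by simp) h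
    rw [h5] at h4
    rw [← Finset.sum_div, ← neg_div, div_eq_iff (pow_pos hf0 _).ne']
    linarith
  have key : ∀ k : ℕ, ∀ l : Fin (D + 1), D < (l : ℕ) + k → P l = 0 := by
    intro k
    induction k with
    | zero =>
      intro l hl
      have := l.isLt
      omega
    | succ k ih =>
      intro l hl
      apply top l
      intro l' hll
      apply ih l'
      have : (l : ℕ) < (l' : ℕ) := hll
      omega
  funext l
  have h1 := key (D + 1) l (by omega)
  simp only [hP] at h1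
  exact (Polynomial.map_eq_zero_iff (algebraMap ℚ ℝ).injective).1 h1

/-- `f(t) = λ Γ(a_1 + c_1 t) ⋯ Γ(a_r + c_r t)` -/
noncomputable def PG {r : ℕ} (lam : ℝ) (a c : Fin r → ℝ) (t : ℝ) : ℝ :=
  lam * ∏ j, Real.Gamma (a j + c j * t)

theorem PG_an {r : ℕ} (lam : ℝ) (a c : Fin r → ℝ) (ha : ∀ j, 0 < a j) (hc : ∀ j, 1 ≤ c j) :
    AnalyticOnNhd ℝ (PG lam a c) (Ici 0) := by
  intro t ht
  refine analyticAt_const.mul (Finset.analyticAt_fun_prod _ fun j _ => ?_)
  have h1 : AnalyticAt ℝ (fun t : ℝ => a j + c j * t) t :=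
    analyticAt_const.add (analyticAt_const.mul analyticAt_id)
  have h2 : 0 < a j + c j * t := by
    have : 0 ≤ c j * t := mul_nonneg (by linarith [hc j]) ht
    linarith [ha j]
  exact AnalyticAt.comp (g := Real.Gamma) (f := fun t : ℝ => a j + c j * t) (gamma_an h2) h1

theorem PG_ge {r : ℕ} (hr : 0 < r) (lam : ℝ) (hl : 0 < lam) (a c : Fin r → ℝ) (ha : ∀ j, 0 < a j)
    (hc : ∀ j, 1 ≤ c j) (n : ℕ) (hn : 1 ≤ n) : lam * (n.factorial : ℝ) ≤ PG lam a c ((n : ℝ) + 1) := by
  unfold PG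
  refine mul_le_mul_of_nonneg_left ?_ hl.le
  have hn1 : (1 : ℝ) ≤ (n : ℝ) := by exact_mod_cast hn
  have hf1 : (1 : ℝ) ≤ (n.factorial : ℝ) := by exact_mod_cast n.factorial_pos
  have h1 : ∀ j, (n.factorial : ℝ) ≤ Real.Gamma (a j + c j * ((n : ℝ) + 1)) := by
    intro j
    rw [← Real.Gamma_nat_eq_factorial]
    have h2 : (n : ℝ) + 1 ≤ a j + c j * ((n : ℝ) + 1) := by nlinarith [ha j, hc j]
    exact Real.Gamma_strictMonoOn_Ici.monotoneOn (by simp only [mem_Ici]; linarith)
      (by simp only [mem_Ici]; linarith) h2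
  calc (n.factorial : ℝ) = (n.factorial : ℝ) ^ 1 := (pow_one _).symm
    _ ≤ (n.factorial : ℝ) ^ r := pow_le_pow_right₀ hf1 hr
    _ = ∏ _j : Fin r, (n.factorial : ℝ) := by rw [Finset.prod_const, Finset.card_univ, Fintype.card_fin]
    _ ≤ _ := Finset.prod_le_prod (fun _ _ => by positivity) fun j _ => h1 j

theorem PG_ind {r : ℕ} (hr : 0 < r) (lam : ℝ) (hl : 0 < lam) (a c : Fin r → ℝ) (ha : ∀ j, 0 < a j)
    (hc : ∀ j, 1 ≤ c j) (D : ℕ) : PolyIndep (pw (PG lam a c) D) 0 1 := by
  apply ind_growth _ (PG_an lam a c ha hc)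
  · have h1 : ∀ᶠ n : ℕ in atTop, 1 ≤ lam * (n.factorial : ℝ) := by
      filter_upwards [(poly_fact (C lam⁻¹)).eventually_lt_const (show (0 : ℝ) < 1 by norm_num)] with n hn
      have hf0 : (0 : ℝ) < (n.factorial : ℝ) := by exact_mod_cast n.factorial_pos
      rw [eval_C, div_lt_one hf0, inv_lt_iff_one_lt_mul₀ hl] at hn
      rw [mul_comm]
      exact hn.le
    obtain ⟨N, hN⟩ := eventually_atTop.1 h1
    refine eventually_atTop.2 ⟨N + 2, fun n hn => ?_⟩
    obtain ⟨m, rfl⟩ : ∃ m, n = m + 1 := ⟨n - 1, by omega⟩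
    push_cast
    exact (hN m (by omega)).trans (PG_ge hr lam hl a c ha hc m (by omega))
  · intro P
    rw [← tendsto_add_atTop_iff_nat 1]
    have h2 := ((poly_fact (P.comp (X + 1))).abs).mul_const lam⁻¹
    rw [abs_zero, zero_mul] at h2
    refine squeeze_zero_norm' ?_ h2
    filter_upwards [eventually_ge_atTop 1] with n hn
    have hf0 : (0 : ℝ) < (n.factorial : ℝ) := by exact_mod_cast n.factorial_pos
    have h3 := PG_ge hr lam hl a c ha hc n hn
    have h4 : 0 < lam * (n.factorial : ℝ) := mul_pos hl hf0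
    push_cast
    rw [Real.norm_eq_abs, abs_div, abs_div, abs_of_pos (h4.trans_le h3), abs_of_pos hf0]
    simp only [eval_comp, eval_add, eval_X, eval_one]
    rw [div_mul_eq_mul_div, ← div_eq_mul_inv, div_div]
    exact div_le_div_of_nonneg_left (abs_nonneg _) (by positivity) h3

end Pool.Agent.TH814.GN
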